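import Pool.Agent.Helper34.LL.Defs

/-!
# Post's tag system (MP_41f897_lc): conservation of the mean length
-/

set_option autoImplicit false

namespace Pool.Agent.Helper92.LL

open Pool.Agent.Helper34.LL Pool.Agent.Helper34.SD Pool.Agent.Helper34.PT

private theorem bin_len (W : List Bool) :
    (bin W).length = 2 * W.count false + 4 * W.count true := by
  induction W with
  | nil => rfl
  | cons c W ih =>
    cases c
    · simp only [bin, List.length_cons, ih, List.count_cons_self,
        List.count_cons_of_ne (show false ≠ true by decide)]
      omega
    · simp only [bin, List.length_cons, ih, List.count_cons_self,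
        List.count_cons_of_ne (show true ≠ false by decide)]
      omega

private theorem sum_true (W : List Bool) :
    (sec W 0).count true + (sec W 1).count true + (sec W 2).count true = 3 * W.count true := by
  induction W with
  | nil => rfl
  | cons c W ih =>
    cases c
    · have h0 : sec (false :: W) 0 = [false] ++ sec W 1 := rfl
      have h1 : sec (false :: W) 1 = [false] ++ sec W 2 := rfl
      have h2 : sec (false :: W) 2 = [] ++ sec W 0 := rfl
      rw [h0, h1, h2]
      simp only [List.count_append, List.count_cons, List.count_nil]
      simp
      omega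
    · have h0 : sec (true :: W) 0 = [true, true] ++ sec W 2 := rfl
      have h1 : sec (true :: W) 1 = [true] ++ sec W 0 := rfl
      have h2 : sec (true :: W) 2 = [false] ++ sec W 1 := rfl
      rw [h0, h1, h2]
      simp only [List.count_append, List.count_cons, List.count_nil]
      simp
      omega

private theorem sum_false (W : List Bool) :
    (sec W 0).count false + (sec W 1).count false + (sec W 2).count false =
      2 * W.count false + W.count true := by
  induction W with
  | nil => rfl
  | cons c W ih =>
    cases c
    · have h0 : sec (false :: W) 0 = [false] ++ sec W 1 := rfl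
      have h1 : sec (false :: W) 1 = [false] ++ sec W 2 := rfl
      have h2 : sec (false :: W) 2 = [] ++ sec W 0 := rfl
      rw [h0, h1, h2]
      simp only [List.count_append, List.count_cons, List.count_nil]
      simp
      omega
    · have h0 : sec (true :: W) 0 = [true, true] ++ sec W 2 := rfl
      have h1 : sec (true :: W) 1 = [true] ++ sec W 0 := rfl
      have h2 : sec (true :: W) 2 = [false] ++ sec W 1 := rfl
      rw [h0, h1, h2]
      simp only [List.count_append, List.count_cons, List.count_nil]
      simp
      omega

private theorem sum_vec (m : ℕ) (f : List (Fin 3) → ℕ) :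
    ∑ x : List.Vector (Fin 3) (m + 1), f x.toList =
      ∑ s : Fin 3, ∑ v : List.Vector (Fin 3) m, f (s :: v.toList) := by
  let e : List.Vector (Fin 3) (m + 1) ≃ Fin 3 × List.Vector (Fin 3) m :=
    { toFun := fun x => (x.head, x.tail)
      invFun := fun p => p.1 ::ᵥ p.2
      left_inv := fun x => List.Vector.cons_head_tail x
      right_inv := fun p => by simp }
  rw [← Fintype.sum_prod_type']
  refine Fintype.sum_equiv e _ _ fun x => ?_
  show f x.toList = f (x.head :: x.tail.toList)
  conv_lhs => rw [← List.Vector.cons_head_tail x, List.Vector.toList_cons]

private theorem sumT (m : ℕ) : ∀ W : List Bool,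
    (∑ v : List.Vector (Fin 3) m, (bin (secs W v.toList)).length) + 2 ^ (m + 1) * W.count true =
      2 ^ (m + 1) * W.count false + 6 * 3 ^ m * W.count true := by
  induction m with
  | zero =>
    intro W
    have h : ∀ v : List.Vector (Fin 3) 0, (bin (secs W v.toList)).length =
        2 * W.count false + 4 * W.count true := by
      intro v
      have : v.toList = [] := by
        rw [Subsingleton.elim v List.Vector.nil]; rfl
      rw [this]
      exact bin_len W
    have hc : Fintype.card (List.Vector (Fin 3) 0) = 1 := by simp
    simp only [h, Finset.sum_const, Finset.card_univ, hc, smul_eq_mul]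
    ring
  | succ m ih =>
    intro W
    rw [sum_vec m (fun x => (bin (secs W x)).length), Fin.sum_univ_three]
    simp only [secs]
    have a0 := ih (sec W 0)
    have a1 := ih (sec W 1)
    have a2 := ih (sec W 2)
    have b := sum_true W
    have c := sum_false W
    have e1 : (2 : ℕ) ^ (m + 1 + 1) = 2 * 2 ^ (m + 1) := by ring
    have e2 : (3 : ℕ) ^ (m + 1) = 3 * 3 ^ m := by ring
    rw [e1, e2]
    generalize (∑ v : List.Vector (Fin 3) m, (bin (secs (sec W 0) v.toList)).length) = A0 at *
    generalize (∑ v : List.Vector (Fin 3) m, (bin (secs (sec W 1) v.toList)).length) = A1 at *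
    generalize (∑ v : List.Vector (Fin 3) m, (bin (secs (sec W 2) v.toList)).length) = A2 at *
    generalize (2 : ℕ) ^ (m + 1) = p at *
    generalize (3 : ℕ) ^ m = q at *
    nlinarith [a0, a1, a2, congrArg (fun z => p * z) b, congrArg (fun z => p * z) c,
      congrArg (fun z => q * z) b]

/-- Conservation of the mean length. -/
theorem hLC : Stmt_LC := by
  intro T
  rw [sum_vec T (fun x => FF x [false] + FF x [true]), Fin.sum_univ_three]
  have h0 : ∀ (c : Bool) (v : List (Fin 3)), FF (0 :: v) [c] = (bin (secs [c] v)).length :=
    fun c v => rfl
  have h1 : ∀ (c : Bool) (v : List (Fin 3)), FF (1 :: v) [c] = (bin (secs [] v)).length :=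
    fun c v => rfl
  have h2 : ∀ (c : Bool) (v : List (Fin 3)), FF (2 :: v) [c] = (bin (secs [] v)).length :=
    fun c v => rfl
  simp only [h0, h1, h2, Finset.sum_add_distrib]
  have e0 := sumT T []
  have ef := sumT T [false]
  have et := sumT T [true]
  have k1 : List.count true ([] : List Bool) = 0 := rfl
  have k2 : List.count false ([] : List Bool) = 0 := rfl
  have k3 : List.count true [false] = 0 := rfl
  have k4 : List.count false [false] = 1 := rfl
  have k5 : List.count true [true] = 1 := rfl
  have k6 : List.count false [true] = 0 := rfl
  rw [k1, k2] at e0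
  rw [k3, k4] at ef
  rw [k5, k6] at et
  have e2 : (3 : ℕ) ^ (T + 1) = 3 * 3 ^ T := by ring
  rw [e2]
  omega

end Pool.Agent.Helper92.LL
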